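import Pool.Agent.TH452.MixG

set_option autoImplicit false

/-!
# Mixed metric dimension and cyclomatic number of 2-connected graphs

Every 2-connected graph `G` which is not a cycle has mixed metric dimension at most twice its
cyclomatic number.

Proof idea.  Let `r` be a vertex of degree at least three and `T` a breadth first search tree with
root `r`.  The set `S` of `r` and all ends of cotree edges is a mixed resolving set.  If it has
more than `2c` elements, the cotree edges form a matching; then one of the ends of a cotree edge
at a vertex of largest distance from `r` can be left out.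
-/

namespace Pool.Agent.Results.MP_ca4ce9_co.MixedDim

open SimpleGraph

/-- The distance from the vertex `w` to the edge `e` of `G`: the smaller one of the distances
from `w` to the two ends of `e`. -/
noncomputable def distEdge {V : Type*} (G : SimpleGraph V) (w : V) (e : Sym2 V) : ℕ :=
  Sym2.lift ⟨fun u v => min (G.dist w u) (G.dist w v), fun _ _ => min_comm _ _⟩ e

/-- The distance from the vertex `w` to a vertex or an edge of `G`. -/
noncomputable def distElt {V : Type*} (G : SimpleGraph V) (w : V) (x : V ⊕ G.edgeSet) : ℕ :=
  match x with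
  | Sum.inl v => G.dist w v
  | Sum.inr e => distEdge G w e.1

/-- `S` is a mixed resolving set: every two distinct elements of `V(G) ∪ E(G)` have different
distances from some vertex of `S`. -/
def IsMixedResolving {V : Type*} (G : SimpleGraph V) (S : Finset V) : Prop :=
  ∀ x y : V ⊕ G.edgeSet, x ≠ y → ∃ s ∈ S, distElt G s x ≠ distElt G s y

/-- The mixed metric dimension: the smallest size of a mixed resolving set. -/
noncomputable def mdim {V : Type*} (G : SimpleGraph V) : ℕ :=
  sInf {k | ∃ S : Finset V, S.card = k ∧ IsMixedResolving G S}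

/-- `G` is 2-connected: at least three vertices, connected, and no cut-vertex. -/
def IsTwoConnected {V : Type*} (G : SimpleGraph V) : Prop :=
  3 ≤ Nat.card V ∧ G.Connected ∧ ∀ v : V, (G.induce {v}ᶜ).Connected

/-- `G` is a cycle: some closed walk without repeated vertices (a cycle of `G`) uses all the
vertices and all the edges of `G`. -/
def IsCycleGraph {V : Type*} (G : SimpleGraph V) : Prop :=
  ∃ (v : V) (p : G.Walk v v), p.IsCycle ∧ p.toSubgraph = ⊤

/-- The cyclomatic number `m - n + 1`. -/
noncomputable def cyclomatic {V : Type*} (G : SimpleGraph V) : ℤ :=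
  (Nat.card G.edgeSet : ℤ) - (Nat.card V : ℤ) + 1

open Pool.Agent.TH452.Mix in
lemma isMixedResolving_of_res {V : Type*} {G : SimpleGraph V} {S : Finset V}
    (h : Res G (S : Set V)) : IsMixedResolving G S := by
  have hE : ∀ (w : V) (a b : V), distEdge G w s(a, b) = dE2 G w a b := fun w a b => rfl
  rintro (u | ⟨e, he⟩) (v | ⟨f, hf⟩) hne
  · exact h.vv u v (fun e => hne (by rw [e]))
  · revert hf
    refine Sym2.ind (fun a b hf _ => ?_) f
    exact h.ve u a b hf
  · revert he
    refine Sym2.ind (fun a b he _ => ?_) e
    obtain ⟨s, hs, hs'⟩ := h.ve v a b he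
    exact ⟨s, hs, hs'.symm⟩
  · revert he hf
    refine Sym2.ind (fun a b => ?_) e
    refine Sym2.ind (fun c d => ?_) f
    intro he hf hne
    exact h.ee a b c d he hf (fun e => hne (by
      congr 1
      exact Subtype.ext e))

/-- **Every 2-connected graph that is not a cycle has mixed metric dimension at most twice its
cyclomatic number.** (The minimum in the definition of the mixed metric dimension is attained.) -/
theorem result {V : Type*} [Finite V] (G : SimpleGraph V) (h2 : IsTwoConnected G)
    (hnc : ¬ IsCycleGraph G) :
    (∃ S : Finset V, S.card = mdim G ∧ IsMixedResolving G S) ∧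
      (mdim G : ℤ) ≤ 2 * cyclomatic G := by
  classical
  cases nonempty_fintype V
  obtain ⟨h3, hc, hcut⟩ := h2
  rw [Nat.card_eq_fintype_card] at h3
  have hdeg := Pool.Agent.TH452.Mix.deg_two h3 hc hcut
  obtain ⟨r, hr⟩ : ∃ r, Pool.Agent.TH452.Mix.Deg3 G r := by
    by_contra hcon
    push Not at hcon
    exact hnc (Pool.Agent.TH452.Mix.cycle_of_not_deg3 hc hdeg hcon)
  obtain ⟨S, hS, hcard⟩ := Pool.Agent.TH452.Mix.exists_finset hc hdeg hr hcut
  have hS' := isMixedResolving_of_res hS
  have hne : {k | ∃ S : Finset V, S.card = k ∧ IsMixedResolving G S}.Nonempty :=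
    ⟨S.card, S, rfl, hS'⟩
  refine ⟨Nat.sInf_mem hne, ?_⟩
  have hle : mdim G ≤ S.card := Nat.sInf_le ⟨S, rfl, hS'⟩
  unfold cyclomatic
  omega

end Pool.Agent.Results.MP_ca4ce9_co.MixedDim
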